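import Pool.Agent.W739.CY.Stm

/-! # Project CY (helper739), part D3: the classical 2-dependent 3-coloring -/

set_option autoImplicit false
set_option linter.all false

namespace Pool.Agent.W723.CY

open Pool.Agent.W739.CY Finset

section ops

variable {C : Type} [DecidableEq C]

/-- sum over all deletions of a letter -/
def ds : (List C → ℝ) → List C → ℝ
  | _, [] => 0
  | f, x :: w => f w + ds (fun v => f (x :: v)) w

/-- corrected sum over all deletions of a letter -/
def E : (List C → ℝ) → List C → ℝ
  | _, [] => 0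
  | f, [_] => f []
  | f, x :: y :: w => (1 - 2 * (if x = y then 1 else 0)) * f (y :: w) +
      E (fun v => f (x :: v)) (y :: w)

theorem E_nil (f : List C → ℝ) : E f [] = 0 := by unfold E; rfl
theorem E_one (f : List C → ℝ) (x : C) : E f [x] = f [] := by unfold E; rfl
theorem E_cc (f : List C → ℝ) (x y : C) (w : List C) :
    E f (x :: y :: w) = (1 - 2 * (if x = y then 1 else 0)) * f (y :: w) +
      E (fun v => f (x :: v)) (y :: w) := by rw [E]

theorem ds_nil (f : List C → ℝ) : ds f [] = 0 := by unfold ds; rfl
theorem ds_cons (f : List C → ℝ) (x : C) (w : List C) :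
    ds f (x :: w) = f w + ds (fun v => f (x :: v)) w := by rw [ds]

theorem E_congr : ∀ (w : List C) (f g : List C → ℝ),
    (∀ v, v.length + 1 = w.length → f v = g v) → E f w = E g w
  | [], _, _, _ => by rw [E_nil, E_nil]
  | [x], f, g, h => by rw [E_one, E_one]; exact h [] rfl
  | x :: y :: w, f, g, h => by
    rw [E_cc, E_cc, h (y :: w) rfl,
      E_congr (y :: w) (fun v => f (x :: v)) (fun v => g (x :: v)) (fun v hv => h (x :: v) (by
        simp only [List.length_cons] at hv ⊢; omega))]

theorem ds_congr : ∀ (w : List C) (f g : List C → ℝ),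
    (∀ v, v.length + 1 = w.length → f v = g v) → ds f w = ds g w
  | [], _, _, _ => by rw [ds_nil, ds_nil]
  | x :: w, f, g, h => by
    rw [ds_cons, ds_cons, h w rfl,
      ds_congr w (fun v => f (x :: v)) (fun v => g (x :: v)) (fun v hv => h (x :: v) (by
        simp only [List.length_cons] at hv ⊢; omega))]

theorem E_zero : ∀ (w : List C), E (fun _ => 0) w = 0
  | [] => E_nil _
  | [x] => E_one _ x
  | x :: y :: w => by rw [E_cc, E_zero (y :: w)]; ring

theorem E_smul (c : ℝ) : ∀ (w : List C) (f : List C → ℝ), E (fun v => c * f v) w = c * E f w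
  | [], f => by rw [E_nil, E_nil, mul_zero]
  | [x], f => by rw [E_one, E_one]
  | x :: y :: w, f => by
    rw [E_cc, E_cc, E_smul c (y :: w) (fun v => f (x :: v))]; ring

theorem E_sum {κ : Type} [Fintype κ] : ∀ (w : List C) (f : κ → List C → ℝ),
    E (fun v => ∑ k, f k v) w = ∑ k, E (f k) w
  | [], f => by simp only [E_nil, Finset.sum_const_zero]
  | [x], f => by simp only [E_one]
  | x :: y :: w, f => by
    simp only [E_cc]
    rw [E_sum (y :: w) (fun k v => f k (x :: v)), Finset.sum_add_distrib, Finset.mul_sum]

theorem E_app : ∀ (u : List C) (f : List C → ℝ) (x : C) (v : List C),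
    E f (u ++ x :: v) = E (fun t => f (t ++ x :: v)) u + E (fun t => f (u ++ t)) (x :: v)
      - 2 * (if u.getLast? = some x then f (u ++ v) else 0)
  | [], f, x, v => by
    rw [E_nil]
    simp
  | [a], f, x, v => by
    rw [E_one]
    simp only [List.singleton_append, List.nil_append, List.getLast?_singleton, Option.some.injEq]
    rw [E_cc]
    by_cases h : a = x
    · subst h; simp only [if_true]; ring
    · simp only [if_neg h]; ring
  | a :: b :: u, f, x, v => by
    have ih := E_app (b :: u) (fun t => f (a :: t)) x v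
    simp only [List.cons_append] at ih ⊢
    rw [E_cc, ih, E_cc]
    have e : (a :: b :: u).getLast? = (b :: u).getLast? := by
      rw [List.getLast?_cons_cons]
    rw [e]
    simp only [List.cons_append]
    ring

theorem ds_snoc : ∀ (w : List C) (f : List C → ℝ) (x : C),
    ds f (w ++ [x]) = ds (fun v => f (v ++ [x])) w + f w
  | [], f, x => by
    rw [List.nil_append, ds_cons, ds_nil, ds_nil]; ring
  | a :: w, f, x => by
    rw [List.cons_append, ds_cons, ds_snoc w, ds_cons]
    simp only [List.cons_append]
    ring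

theorem E_eq_ds : ∀ (w : List C) (f : List C → ℝ), (∀ u x v, w ≠ u ++ x :: x :: v) →
    E f w = ds f w
  | [], f, _ => by rw [E_nil, ds_nil]
  | [x], f, _ => by rw [E_one, ds_cons, ds_nil, add_zero]
  | x :: y :: w, f, h => by
    have hxy : x ≠ y := fun hxy => h [] x w (by rw [hxy]; rfl)
    rw [E_cc, if_neg hxy, E_eq_ds (y :: w) (fun v => f (x :: v)) (fun u z v he =>
      h (x :: u) z v (by rw [he]; rfl)), ds_cons f]
    ring

/-- the building function -/
def Bn : ℕ → List C → ℝ
  | 0, _ => 1
  | n + 1, w => E (Bn n) w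

/-- the building function -/
def B (w : List C) : ℝ := Bn w.length w

theorem B_nil : B ([] : List C) = 1 := rfl

theorem B_E (w : List C) (hw : w ≠ []) : B w = E B w := by
  obtain ⟨x, w', rfl⟩ := List.exists_cons_of_ne_nil hw
  show Bn (w'.length + 1) (x :: w') = _
  rw [Bn]
  refine E_congr _ _ _ fun v hv => ?_
  rw [List.length_cons] at hv
  have : v.length = w'.length := by omega
  rw [B, this]

end ops

/-! ### three colours -/

theorem sum_ind (l : Option (Fin 3)) (h : l ≠ none) (c : ℝ) :
    ∑ x : Fin 3, (if l = some x then c else 0) = c := by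
  obtain ⟨a, rfl⟩ := Option.ne_none_iff_exists'.mp h
  simp only [Option.some.injEq]
  rw [Finset.sum_ite_eq]
  simp

theorem getLast?_ne {u : List (Fin 3)} (hu : u ≠ []) : u.getLast? ≠ none := by
  rw [Ne, List.getLast?_eq_none_iff]; exact hu

/-- one star at the right -/
theorem M1R : ∀ (n : ℕ) (u : List (Fin 3)), u.length = n →
    ∑ x, B (u ++ [x]) = ((n : ℝ) + 3) * B u
  | 0, u, hu => by
    have : u = [] := List.eq_nil_of_length_eq_zero hu
    subst this
    simp only [List.nil_append]
    have h : ∀ x : Fin 3, B [x] = 1 := fun x => by rw [B_E _ (by simp), E_one, B_nil]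
    simp only [h]
    rw [B_nil]
    simp
  | n + 1, u, hu => by
    have hne : u ≠ [] := by rintro rfl; simp at hu
    have h1 : ∀ x : Fin 3, B (u ++ [x]) = E (fun t => B (t ++ [x])) u + B u -
        2 * (if u.getLast? = some x then B u else 0) := by
      intro x
      rw [B_E _ (by simp), E_app, E_one]
      simp only [List.append_nil]
    simp only [h1]
    rw [Finset.sum_sub_distrib, Finset.sum_add_distrib, ← E_sum, ← Finset.mul_sum,
      sum_ind _ (getLast?_ne hne)]
    have h2 : E (fun v => ∑ x, B (v ++ [x])) u = E (fun v => ((n : ℝ) + 3) * B v) u :=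
      E_congr _ _ _ fun v hv => M1R n v (by omega)
    rw [h2, E_smul, ← B_E u hne]
    simp only [Finset.sum_const, Finset.card_univ, Fintype.card_fin, nsmul_eq_mul]
    push_cast
    ring

/-- one star at the left -/
theorem M1L : ∀ (n : ℕ) (u : List (Fin 3)), u.length = n →
    ∑ x, B (x :: u) = ((n : ℝ) + 3) * B u
  | 0, u, hu => by
    have : u = [] := List.eq_nil_of_length_eq_zero hu
    subst this
    have h : ∀ x : Fin 3, B [x] = 1 := fun x => by rw [B_E _ (by simp), E_one, B_nil]
    simp only [h]
    rw [B_nil]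
    simp
  | n + 1, u, hu => by
    obtain ⟨y, w, rfl⟩ := List.exists_cons_of_length_eq_add_one hu
    have h1 : ∀ x : Fin 3, B (x :: y :: w) = (B (y :: w) -
        2 * (if some y = some x then B (y :: w) else 0)) + E (fun t => B (x :: t)) (y :: w) := by
      intro x
      rw [B_E _ (by simp), E_cc]
      by_cases h : x = y
      · subst h; simp only [if_true]; ring
      · rw [if_neg h, if_neg (fun h' => h (Option.some.inj h').symm)]; ring
    simp only [h1]
    rw [Finset.sum_add_distrib, Finset.sum_sub_distrib, ← E_sum, ← Finset.mul_sum,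
      sum_ind _ (by simp)]
    have h2 : E (fun v => ∑ x, B (x :: v)) (y :: w) = E (fun v => ((n : ℝ) + 3) * B v) (y :: w) :=
      E_congr _ _ _ fun v hv => M1L n v (by simp only [List.length_cons] at hv hu; omega)
    rw [h2, E_smul, ← B_E (y :: w) (by simp)]
    simp only [Finset.sum_const, Finset.card_univ, Fintype.card_fin, nsmul_eq_mul]
    push_cast
    ring

/-- the corrected deletion sum with two letters in the middle -/
theorem E_mid (f : List (Fin 3) → ℝ) (u v : List (Fin 3)) (x y : Fin 3) :
    E f (u ++ x :: y :: v) = E (fun t => f (t ++ x :: y :: v)) u +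
      (f (u ++ y :: v) - 2 * (if u.getLast? = some x then f (u ++ y :: v) else 0)) +
      (f (u ++ x :: v) - 2 * (if some x = some y then f (u ++ x :: v) else 0)
        - 2 * (if v.head? = some y then f (u ++ x :: v) else 0)) +
      E (fun t => f (u ++ x :: y :: t)) v := by
  rw [E_app, E_cc]
  cases v with
  | nil =>
    rw [E_one, E_nil]
    simp only [List.head?_nil]
    by_cases h : x = y
    · subst h; simp; ring
    · simp [h]; ring
  | cons z v =>
    rw [E_cc]
    simp only [List.head?_cons, Option.some.injEq]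
    by_cases h : x = y
    · subst h
      by_cases h2 : x = z
      · subst h2; simp; ring
      · simp [h2, Ne.symm h2]; ring
    · by_cases h2 : y = z
      · subst h2; simp [h]; ring
      · simp [h, h2, Ne.symm h2]; ring

theorem ind_sub (u : List (Fin 3)) (hu : u ≠ []) (g : Fin 3 → ℝ) :
    ∑ x : Fin 3, ∑ y : Fin 3, (g y - 2 * (if u.getLast? = some x then g y else 0)) =
      ∑ y, g y := by
  rw [Finset.sum_comm]
  refine Finset.sum_congr rfl fun y _ => ?_
  rw [Finset.sum_sub_distrib, ← Finset.mul_sum, sum_ind _ (getLast?_ne hu)]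
  simp only [Finset.sum_const, Finset.card_univ, Fintype.card_fin, nsmul_eq_mul]
  push_cast
  ring

theorem ind_sub2 (v : List (Fin 3)) (hv : v ≠ []) (g : Fin 3 → ℝ) :
    ∑ x : Fin 3, ∑ y : Fin 3, (g x - 2 * (if some x = some y then g x else 0)
        - 2 * (if v.head? = some y then g x else 0)) = - ∑ y, g y := by
  rw [← Finset.sum_neg_distrib]
  refine Finset.sum_congr rfl fun x _ => ?_
  rw [Finset.sum_sub_distrib, Finset.sum_sub_distrib, ← Finset.mul_sum, ← Finset.mul_sum,
    sum_ind _ (by simp), sum_ind _ (by
      obtain ⟨z, w, rfl⟩ := List.exists_cons_of_ne_nil hv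
      simp)]
  simp only [Finset.sum_const, Finset.card_univ, Fintype.card_fin, nsmul_eq_mul]
  push_cast
  ring

theorem ind_sub3 (g : Fin 3 → ℝ) :
    ∑ x : Fin 3, ∑ y : Fin 3, (g x - 2 * (if some x = some y then g x else 0)
        - 2 * (if ([] : List (Fin 3)).head? = some y then g x else 0)) = ∑ y, g y := by
  refine Finset.sum_congr rfl fun x _ => ?_
  rw [Finset.sum_sub_distrib, Finset.sum_sub_distrib, ← Finset.mul_sum, sum_ind _ (by simp)]
  simp only [Finset.sum_const, Finset.card_univ, Fintype.card_fin, nsmul_eq_mul, List.head?_nil,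
    reduceCtorEq, if_false]
  push_cast
  ring

/-- two stars in the middle -/
noncomputable def S2 (u v : List (Fin 3)) : ℝ := ∑ x, ∑ y, B (u ++ x :: y :: v)

theorem S2_E (u v : List (Fin 3)) : S2 u v = E (fun t => S2 t v) u + E (fun t => S2 u t) v +
    ∑ x : Fin 3, ∑ y : Fin 3, (B (u ++ y :: v) -
      2 * (if u.getLast? = some x then B (u ++ y :: v) else 0)) +
    ∑ x : Fin 3, ∑ y : Fin 3, (B (u ++ x :: v) - 2 * (if some x = some y then B (u ++ x :: v) else 0)
        - 2 * (if v.head? = some y then B (u ++ x :: v) else 0)) := by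
  unfold S2
  rw [E_sum, E_sum]
  rw [← Finset.sum_add_distrib, ← Finset.sum_add_distrib, ← Finset.sum_add_distrib]
  refine Finset.sum_congr rfl fun x _ => ?_
  rw [E_sum, E_sum]
  rw [← Finset.sum_add_distrib, ← Finset.sum_add_distrib, ← Finset.sum_add_distrib]
  refine Finset.sum_congr rfl fun y _ => ?_
  rw [B_E _ (by simp), E_mid]
  ring

theorem S2_val : ∀ (n : ℕ) (u v : List (Fin 3)), u.length + v.length = n →
    S2 u v = 2 * ((u.length + v.length + 4).choose (u.length + 2) : ℝ) * (B u * B v) := by
  intro n
  induction n with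
  | zero =>
    intro u v h
    have hu : u = [] := List.eq_nil_of_length_eq_zero (by omega)
    have hv : v = [] := List.eq_nil_of_length_eq_zero (by omega)
    subst hu; subst hv
    have h : ∀ x : Fin 3, B [x] = 1 := fun x => by rw [B_E _ (by simp), E_one, B_nil]
    rw [S2_E, E_nil, E_nil, ind_sub3]
    simp only [List.nil_append, List.getLast?_nil, reduceCtorEq, if_false, h, B_nil,
      List.length_nil]
    have : Nat.choose (0 + 0 + 4) (0 + 2) = 6 := by decide
    rw [this]
    simp
    norm_num
  | succ n ih =>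
    intro u v h
    have hEu : u ≠ [] → E (fun t => S2 t v) u =
        2 * ((u.length + v.length + 3).choose (u.length + 1) : ℝ) * (B u * B v) := by
      intro hu
      have e : E (fun t => S2 t v) u = E (fun t =>
          (2 * ((u.length + v.length + 3).choose (u.length + 1) : ℝ) * B v) * B t) u := by
        refine E_congr _ _ _ fun t ht => ?_
        show S2 t v = _
        rw [ih t v (by omega)]
        have e1 : t.length + v.length + 4 = u.length + v.length + 3 := by omega
        have e2 : t.length + 2 = u.length + 1 := by omega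
        rw [e1, e2]
        ring
      rw [e, E_smul, ← B_E u hu]
      ring
    have hEv : v ≠ [] → E (fun t => S2 u t) v =
        2 * ((u.length + v.length + 3).choose (u.length + 2) : ℝ) * (B u * B v) := by
      intro hv
      have e : E (fun t => S2 u t) v = E (fun t =>
          (2 * ((u.length + v.length + 3).choose (u.length + 2) : ℝ) * B u) * B t) v := by
        refine E_congr _ _ _ fun t ht => ?_
        show S2 u t = _
        rw [ih u t (by omega)]
        have e1 : u.length + t.length + 4 = u.length + v.length + 3 := by omega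
        rw [e1]
        ring
      rw [e, E_smul, ← B_E v hv]
      ring
    rw [S2_E]
    by_cases hu : u = []
    · by_cases hv : v = []
      · subst hu; subst hv; simp at h
      · subst hu
        rw [E_nil, hEv hv, ind_sub2 v hv]
        simp only [List.nil_append, List.getLast?_nil, reduceCtorEq, if_false, mul_zero, sub_zero,
          Finset.sum_const, Finset.card_univ, Fintype.card_fin, nsmul_eq_mul, List.length_nil,
          Nat.zero_add, B_nil]
        rw [M1L _ v rfl]
        have e1 : ((v.length + 4).choose 2 : ℝ) = ((v.length + 3).choose 2 : ℝ) + (v.length + 3) := by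
          rw [Nat.choose_succ_succ' (v.length + 3) 1]
          push_cast
          rw [Nat.choose_one_right]
          push_cast
          ring
        rw [e1]
        push_cast
        ring
    · by_cases hv : v = []
      · subst hv
        rw [E_nil, hEu hu, ind_sub3, ind_sub u hu]
        simp only [List.length_nil, Nat.add_zero, B_nil]
        rw [M1R _ u rfl]
        have e1 : ((u.length + 4).choose (u.length + 2) : ℝ) =
            ((u.length + 3).choose (u.length + 1) : ℝ) + (u.length + 3) := by
          rw [Nat.choose_succ_succ' (u.length + 3) (u.length + 1)]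
          have : (u.length + 3).choose (u.length + 1 + 1) = u.length + 3 := by
            rw [show u.length + 3 = (u.length + 2) + 1 from rfl,
              show u.length + 1 + 1 = u.length + 2 from rfl, Nat.choose_succ_self_right]
          rw [this]
          push_cast
          ring
        rw [e1]
        ring
      · rw [hEu hu, hEv hv, ind_sub2 v hv, ind_sub u hu]
        have e1 : ((u.length + v.length + 4).choose (u.length + 2) : ℝ) =
            ((u.length + v.length + 3).choose (u.length + 1) : ℝ) +
            ((u.length + v.length + 3).choose (u.length + 2) : ℝ) := by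
          rw [Nat.choose_succ_succ' (u.length + v.length + 3) (u.length + 1)]
          push_cast
          ring
        rw [e1]
        ring


/-! ### the cyclic function -/

section cyc

variable {C : Type} [DecidableEq C]

/-- some two cyclic neighbours are equal -/
def bad (w : List C) : Prop := ∃ (x : C) (v : List C), w ~r (x :: x :: v)

theorem bad_rot {w w' : List C} (h : w ~r w') : bad w ↔ bad w' :=
  ⟨fun ⟨x, v, hx⟩ => ⟨x, v, h.symm.trans hx⟩, fun ⟨x, v, hx⟩ => ⟨x, v, h.trans hx⟩⟩

theorem rot1 (x : C) (w : List C) : (x :: w) ~r (w ++ [x]) := ⟨1, by simp⟩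

theorem bad_map (σ : Equiv.Perm C) (w : List C) : bad (w.map σ) ↔ bad w := by
  constructor
  · rintro ⟨x, v, hx⟩
    refine ⟨σ.symm x, v.map σ.symm, ?_⟩
    have := hx.map σ.symm
    simpa [List.map_map] using this
  · rintro ⟨x, v, hx⟩
    refine ⟨σ x, v.map σ, ?_⟩
    simpa using hx.map σ

noncomputable instance (w : List C) : Decidable (bad w) := Classical.dec _

/-- the cyclic building function -/
noncomputable def Bcn : ℕ → List C → ℝ
  | 0, _ => 0
  | 1, _ => 0
  | 2, w => if bad w then 0 else 1
  | n + 3, w => if bad w then 0 else ds (Bcn (n + 2)) w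

/-- the cyclic building function -/
noncomputable def Bc (w : List C) : ℝ := Bcn w.length w

theorem Bcn2 (w : List C) : Bcn 2 w = if bad w then 0 else 1 := by
  rw [Bcn]

theorem Bcn3 (n : ℕ) (w : List C) : Bcn (n + 3) w = if bad w then 0 else ds (Bcn (n + 2)) w := by
  rw [Bcn]

theorem Bcn_bad (n : ℕ) (w : List C) (h : bad w) : Bcn n w = 0 := by
  match n with
  | 0 => rw [Bcn]
  | 1 => rw [Bcn]
  | 2 => rw [Bcn2, if_pos h]
  | n + 3 => rw [Bcn3, if_pos h]

theorem ds_nonneg : ∀ (w : List C) (f : List C → ℝ), (∀ v, 0 ≤ f v) → 0 ≤ ds f w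
  | [], f, _ => by rw [ds_nil]
  | x :: w, f, h => by
    rw [ds_cons]
    exact add_nonneg (h w) (ds_nonneg w (fun v => f (x :: v)) fun v => h _)

theorem Bcn_nonneg : ∀ (n : ℕ) (w : List C), 0 ≤ Bcn n w
  | 0, w => by rw [Bcn]
  | 1, w => by rw [Bcn]
  | 2, w => by
    rw [Bcn2]; split_ifs <;> norm_num
  | n + 3, w => by
    rw [Bcn3]
    split_ifs
    · exact le_rfl
    · exact ds_nonneg w _ fun v => Bcn_nonneg (n + 2) v

theorem ds_map (σ : Equiv.Perm C) : ∀ (w : List C) (f : List C → ℝ),
    ds f (w.map σ) = ds (fun v => f (v.map σ)) w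
  | [], f => by rw [List.map_nil, ds_nil, ds_nil]
  | x :: w, f => by
    rw [List.map_cons, ds_cons, ds_cons, ds_map σ w]
    simp only [List.map_cons]

theorem Bcn_map (σ : Equiv.Perm C) : ∀ (n : ℕ) (w : List C), Bcn n (w.map σ) = Bcn n w
  | 0, w => by rw [Bcn, Bcn]
  | 1, w => by rw [Bcn, Bcn]
  | 2, w => by rw [Bcn2, Bcn2, if_congr (bad_map σ w) rfl rfl]
  | n + 3, w => by
    rw [Bcn3, Bcn3, ds_map, if_congr (bad_map σ w) rfl rfl]
    simp only [Bcn_map σ (n + 2)]

theorem Bcn_rot : ∀ (n : ℕ) (x : C) (w : List C), w.length + 1 = n →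
    Bcn n (x :: w) = Bcn n (w ++ [x])
  | 0, x, w, _ => by rw [Bcn, Bcn]
  | 1, x, w, _ => by rw [Bcn, Bcn]
  | 2, x, w, _ => by rw [Bcn2, Bcn2, if_congr (bad_rot (rot1 x w)) rfl rfl]
  | n + 3, x, w, h => by
    rw [Bcn3, Bcn3, if_congr (bad_rot (rot1 x w)) rfl rfl, ds_cons, ds_snoc]
    have e : ds (fun v => Bcn (n + 2) (x :: v)) w = ds (fun v => Bcn (n + 2) (v ++ [x])) w :=
      ds_congr _ _ _ fun v hv => Bcn_rot (n + 2) x v (by omega)
    rw [e, add_comm]

theorem Bc_bad (w : List C) (h : bad w) : Bc w = 0 := Bcn_bad _ w h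

theorem Bc_xx (x : C) (v : List C) : Bc (x :: x :: v) = 0 :=
  Bc_bad _ ⟨x, v, List.IsRotated.refl _⟩

theorem Bc_rot (x : C) (w : List C) : Bc (x :: w) = Bc (w ++ [x]) := by
  unfold Bc
  rw [List.length_append, List.length_cons, List.length_cons, List.length_nil]
  exact Bcn_rot _ x w rfl

/-- cyclic version of `E` -/
def Ec (f : List C → ℝ) (w : List C) : ℝ :=
  E f w - 2 * (if w.getLast? = w.head? then f w.tail else 0)

theorem Ec_rot (x : C) (w : List C) (hw : w ≠ []) : Ec Bc (x :: w) = Ec Bc (w ++ [x]) := by
  obtain ⟨y, v, rfl⟩ := List.exists_cons_of_ne_nil hw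
  unfold Ec
  rw [E_cc, E_app (y :: v) Bc x [], E_one]
  have e : E (fun t => Bc (x :: t)) (y :: v) = E (fun t => Bc (t ++ [x])) (y :: v) :=
    E_congr _ _ _ fun t _ => Bc_rot x t
  rw [e]
  have e1 : (x :: y :: v).getLast? = (y :: v).getLast? := by rw [List.getLast?_cons_cons]
  have e2 : (y :: v ++ [x]).getLast? = some x := by
    rw [List.getLast?_append]; simp
  rw [e1, e2]
  simp only [List.head?_cons, List.tail_cons, List.cons_append, List.append_nil, Option.some.injEq]
  have e3 : Bc (v ++ [x]) = Bc (x :: v) := (Bc_rot x v).symm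
  rw [e3]
  by_cases h : x = y
  · subst h
    simp only [if_true]
    ring
  · simp only [if_neg h]
    ring

theorem Ec_rotate : ∀ (k : ℕ) (w : List C), 2 ≤ w.length → Ec Bc (w.rotate k) = Ec Bc w
  | 0, w, _ => by rw [List.rotate_zero]
  | k + 1, w, h => by
    obtain ⟨x, v, rfl⟩ := List.exists_cons_of_length_pos (show 0 < w.length by omega)
    rw [List.rotate_cons_succ, Ec_rotate k (v ++ [x]) (by
      rw [List.length_append]; simp only [List.length_cons, List.length_nil] at h ⊢; omega),
      Ec_rot x v (by rintro rfl; simp at h)]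

theorem Ec_xx (x : C) (v : List C) (hv : v ≠ []) : Ec Bc (x :: x :: v) = 0 := by
  obtain ⟨c, v', rfl⟩ := List.exists_cons_of_ne_nil hv
  unfold Ec
  rw [E_cc, E_cc]
  have e0 : E (fun t => Bc (x :: x :: t)) (c :: v') = 0 := by
    rw [E_congr _ _ (fun _ => 0) fun t _ => Bc_xx x t, E_zero]
  rw [e0, if_pos rfl]
  have e1 : (if (x :: x :: c :: v').getLast? = (x :: x :: c :: v').head? then
      Bc (x :: x :: c :: v').tail else 0) = 0 := by
    by_cases h : (x :: x :: c :: v').getLast? = (x :: x :: c :: v').head?
    · rw [if_pos h]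
      have h2 : (c :: v').getLast? = some x := by
        rw [List.getLast?_cons_cons, List.getLast?_cons_cons] at h
        exact h
      obtain ⟨t, ht⟩ : ∃ t, c :: v' = t ++ [x] := by
        rw [List.getLast?_eq_some_iff] at h2
        obtain ⟨t, ht⟩ := h2
        exact ⟨t, ht⟩
      rw [List.tail_cons, ht]
      have : x :: (t ++ [x]) = (x :: t) ++ [x] := rfl
      rw [this, ← Bc_rot, Bc_xx]
    · rw [if_neg h]
  rw [e1]
  by_cases h : x = c
  · subst h
    rw [Bc_xx]; ring
  · rw [if_neg h]; ring

theorem Bc_E (w : List C) (hw : 3 ≤ w.length) : Bc w = Ec Bc w := by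
  by_cases hb : bad w
  · rw [Bc_bad w hb]
    obtain ⟨x, v, ⟨k, hk⟩⟩ := hb
    rw [← Ec_rotate k w (by omega), hk, Ec_xx]
    rintro rfl
    have := congrArg List.length hk
    rw [List.length_rotate] at this
    simp at this
    omega
  · obtain ⟨n, hn⟩ : ∃ n, w.length = n + 3 := ⟨w.length - 3, by omega⟩
    have h1 : Bc w = ds Bc w := by
      unfold Bc
      rw [hn, Bcn3, if_neg hb]
      refine ds_congr _ _ _ fun v hv => ?_
      have : v.length = n + 2 := by omega
      rw [this]
    have h2 : E Bc w = ds Bc w := by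
      refine E_eq_ds w Bc fun u x v he => hb ⟨x, v ++ u, ?_⟩
      rw [he]
      have := List.isRotated_append (l := u) (l' := x :: x :: v)
      simpa using this
    unfold Ec
    rw [h1, h2]
    have h3 : ¬ (w.getLast? = w.head?) := by
      intro he
      obtain ⟨x, v, rfl⟩ := List.exists_cons_of_length_pos (show 0 < w.length by omega)
      have hv : v ≠ [] := by rintro rfl; simp at hn
      rw [List.head?_cons] at he
      obtain ⟨y, v', rfl⟩ := List.exists_cons_of_ne_nil hv
      rw [List.getLast?_cons_cons, List.getLast?_eq_some_iff] at he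
      obtain ⟨t, ht⟩ := he
      refine hb ⟨x, t, ?_⟩
      rw [ht]
      exact (rot1 x (x :: t)).symm
    rw [if_neg h3]
    ring

end cyc

/-- two stars in the cyclic function -/
noncomputable def M2 (w : List (Fin 3)) : ℝ := ∑ x, ∑ y, Bc (w ++ x :: y :: [])

theorem M2_E (w : List (Fin 3)) (hw : w ≠ []) : M2 w = E M2 w := by
  obtain ⟨f0, w', hw'⟩ := List.exists_cons_of_ne_nil hw
  have h1 : ∀ x y : Fin 3, Bc (w ++ x :: y :: []) = E (fun t => Bc (t ++ x :: y :: [])) w +
      (Bc (w ++ y :: []) - 2 * (if w.getLast? = some x then Bc (w ++ y :: []) else 0)) +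
      (Bc (w ++ x :: []) - 2 * (if some x = some y then Bc (w ++ x :: []) else 0)
        - 2 * (if ([] : List (Fin 3)).head? = some y then Bc (w ++ x :: []) else 0)) -
      2 * (if some f0 = some y then Bc (w ++ x :: []) else 0) := by
    intro x y
    rw [Bc_E _ (by rw [hw']; simp), Ec, E_mid, E_nil]
    have e1 : (w ++ [x, y]).getLast? = some y := by
      rw [List.getLast?_append]; simp
    have e2 : (w ++ [x, y]).head? = some f0 := by rw [hw']; rfl
    have e3 : (w ++ [x, y]).tail = w' ++ [x, y] := by rw [hw']; rfl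
    rw [e1, e2, e3]
    have e4 : (if some y = some f0 then Bc (w' ++ [x, y]) else 0) =
        (if some f0 = some y then Bc (w ++ [x]) else 0) := by
      by_cases h : some f0 = some y
      · rw [if_pos h, if_pos h.symm]
        have h' := Option.some.inj h
        subst h'
        rw [hw']
        have : w' ++ [x, f0] = (w' ++ [x]) ++ [f0] := by simp
        rw [this, ← Bc_rot]
        rfl
      · rw [if_neg h, if_neg (fun h' => h h'.symm)]
    rw [e4]
    ring
  unfold M2
  rw [E_sum]
  simp only [h1]
  simp only [Finset.sum_sub_distrib (f := fun y => _ + _ + _), Finset.sum_add_distrib]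
  rw [ind_sub w hw, ind_sub3]
  simp only [← Finset.mul_sum]
  have h2 : ∀ x : Fin 3, ∑ y : Fin 3, (if some f0 = some y then Bc (w ++ x :: []) else 0) =
      Bc (w ++ x :: []) := fun x => sum_ind _ (by simp) _
  simp only [h2]
  have h3 : ∀ x : Fin 3, E (fun t => ∑ y, Bc (t ++ x :: y :: [])) w =
      ∑ y, E (fun t => Bc (t ++ x :: y :: [])) w := fun x => E_sum w _
  simp only [h3]
  ring

theorem bad2 (x y : Fin 3) : bad [x, y] ↔ x = y := by
  constructor
  · rintro ⟨z, v, h⟩
    have hl := h.perm.length_eq
    have hv : v = [] := by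
      apply List.eq_nil_of_length_eq_zero
      simp only [List.length_cons, List.length_nil] at hl
      omega
    subst hv
    have hx : x ∈ [z, z] := h.perm.mem_iff.mp (by simp)
    have hy : y ∈ [z, z] := h.perm.mem_iff.mp (by simp)
    simp at hx hy
    rw [hx, hy]
  · rintro rfl
    exact ⟨x, [], List.IsRotated.refl _⟩

theorem M2_val : ∀ (n : ℕ) (w : List (Fin 3)), w.length = n → M2 w = 6 * B w
  | 0, w, h => by
    have : w = [] := List.eq_nil_of_length_eq_zero h
    subst this
    unfold M2
    have h1 : ∀ x y : Fin 3, Bc ([] ++ [x, y]) = if x = y then 0 else 1 := by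
      intro x y
      show Bcn 2 [x, y] = _
      rw [Bcn2, if_congr (bad2 x y) rfl rfl]
    simp only [h1, B_nil]
    simp [Fin.sum_univ_three]
    norm_num
  | n + 1, w, h => by
    have hw : w ≠ [] := by rintro rfl; simp at h
    rw [M2_E w hw]
    have e : E M2 w = E (fun v => 6 * B v) w :=
      E_congr _ _ _ fun v hv => M2_val n v (by omega)
    rw [e, E_smul, ← B_E w hw]

theorem sum2 (g : List (Fin 3) → ℝ) :
    ∑ s : Fin 2 → Fin 3, g (List.ofFn s) = ∑ x, ∑ y, g [x, y] := by
  rw [← (finTwoArrowEquiv (Fin 3)).symm.sum_comp, Fintype.sum_prod_type]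
  refine Finset.sum_congr rfl fun x _ => Finset.sum_congr rfl fun y _ => ?_
  simp [List.ofFn_succ, finTwoArrowEquiv]

theorem t_D3 : S_D3 := by
  refine ⟨{
    P := fun w => 2 * B w / ((w.length + 2).factorial : ℝ)
    Cy := fun w => Bc w / (3 * (w.length.factorial : ℝ))
    P_nil := ?_
    P_star := ?_
    Cy_nonneg := ?_
    Cy_rot := ?_
    Cy_map := ?_
    Cy_proper := ?_
    Cy_star := ?_ }⟩
  · rw [B_nil]; simp
  · intro u v
    rw [sum2 (fun s => 2 * B (u ++ s ++ v) / (((u ++ s ++ v).length + 2).factorial : ℝ))]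
    have h1 : ∀ x y : Fin 3, 2 * B (u ++ [x, y] ++ v) / (((u ++ [x, y] ++ v).length + 2).factorial : ℝ)
        = B (u ++ x :: y :: v) * (2 / ((u.length + v.length + 4).factorial : ℝ)) := by
      intro x y
      have e1 : (u ++ [x, y] ++ v).length + 2 = u.length + v.length + 4 := by
        simp only [List.length_append, List.length_cons, List.length_nil]; omega
      rw [e1]
      have e2 : u ++ [x, y] ++ v = u ++ x :: y :: v := by simp
      rw [e2]; ring
    simp only [h1]
    simp only [← Finset.sum_mul]
    have h2 : ∑ x : Fin 3, ∑ y : Fin 3, B (u ++ x :: y :: v) = S2 u v := rfl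
    rw [h2, S2_val _ u v rfl]
    have h3 : (((u.length + v.length + 4).choose (u.length + 2) : ℕ) : ℝ) *
        ((u.length + 2).factorial : ℝ) * ((v.length + 2).factorial : ℝ) =
        ((u.length + v.length + 4).factorial : ℝ) := by
      have := Nat.add_choose_mul_factorial_mul_factorial (u.length + 2) (v.length + 2)
      rw [← Nat.choose_symm_add] at this
      have e : u.length + 2 + (v.length + 2) = u.length + v.length + 4 := by ring
      rw [e] at this
      exact_mod_cast this
    have p1 : ((u.length + 2).factorial : ℝ) ≠ 0 := by positivity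
    have p2 : ((v.length + 2).factorial : ℝ) ≠ 0 := by positivity
    have p3 : ((u.length + v.length + 4).factorial : ℝ) ≠ 0 := by positivity
    field_simp
    rw [← h3]
    ring
  · intro w
    exact div_nonneg (Bcn_nonneg _ _) (by positivity)
  · intro x w
    show Bc (x :: w) / (3 * ((x :: w).length.factorial : ℝ)) =
      Bc (w ++ [x]) / (3 * ((w ++ [x]).length.factorial : ℝ))
    rw [Bc_rot x w]
    have : (w ++ [x]).length = (x :: w).length := by simp
    rw [this]
  · intro σ w
    show Bcn (w.map σ).length (w.map σ) / (3 * ((w.map σ).length.factorial : ℝ)) =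
      Bcn w.length w / (3 * (w.length.factorial : ℝ))
    rw [List.length_map, Bcn_map]
  · intro x w
    show Bc (x :: x :: w) / _ = 0
    rw [Bc_xx, zero_div]
  · intro w _
    rw [sum2 (fun s => Bc (w ++ s) / (3 * (((w ++ s).length).factorial : ℝ)))]
    have h1 : ∀ x y : Fin 3, Bc (w ++ [x, y]) / (3 * (((w ++ [x, y]).length).factorial : ℝ)) =
        Bc (w ++ x :: y :: []) * (1 / (3 * ((w.length + 2).factorial : ℝ))) := by
      intro x y
      have e1 : (w ++ [x, y]).length = w.length + 2 := by simp
      rw [e1]; ring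
    simp only [h1]
    simp only [← Finset.sum_mul]
    have h2 : ∑ x : Fin 3, ∑ y : Fin 3, Bc (w ++ x :: y :: []) = M2 w := rfl
    rw [h2, M2_val _ w rfl]
    field_simp
    ring

end Pool.Agent.W723.CY
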